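import Mathlib
import Pool.Agent.Q186.Bif.Main

/-!
# MP_77ccbb_an, question Q2: negative answer

Near the cusp `1/4` the bifurcation radius equals the distance to the boundary of the Mandelbrot
set on a whole two dimensional sector around the real axis, in particular at non-real
parameters outside `[0, 1/4]` and off the boundary.
-/

namespace Pool.Agent.Results.MP_77ccbb_an.EqualityNearCusp

open Pool.Agent.Q186.Bif

/-- (i) For real `a > 0` and `b` with `|b| ≤ (5/12) a` and `a² + b² ≤ (1/400)²`, the parameter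
`c = 1/4 - (a + b i)` has `r_bif(c) = |c - 1/4| = dist(c, ∂M)`.
(ii) Consequently there is `c`, not on the boundary of the Mandelbrot set and not in `[0,1/4]`,
with `r_bif(c) = dist(c, ∂M)`: the inequality asked for in Q2 fails. -/
theorem result :
    (∀ a b : ℝ, 0 < a → |b| ≤ 5 / 12 * a → a ^ 2 + b ^ 2 ≤ (1 / 400) ^ 2 →
      rbif (1 / 4 - (a + b * Complex.I)) = Real.sqrt (a ^ 2 + b ^ 2) ∧
      Metric.infDist (1 / 4 - (a + b * Complex.I)) (frontier mandel)
        = Real.sqrt (a ^ 2 + b ^ 2)) ∧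
    (∃ c : ℂ, c ∉ frontier mandel ∧ (¬ ∃ t : ℝ, 0 ≤ t ∧ t ≤ 1 / 4 ∧ c = (t : ℂ)) ∧
      rbif c = Metric.infDist c (frontier mandel)) := by
  refine ⟨fun a b ha hb hd => ⟨rbif_eq ha hb hd, infDist_eq ha hb hd⟩, ?_⟩
  have ha : (0 : ℝ) < 1 / 500 := by norm_num
  have hb : |(1 / 2000 : ℝ)| ≤ 5 / 12 * (1 / 500) := by norm_num [abs_of_pos]
  have hd : (1 / 500 : ℝ) ^ 2 + (1 / 2000) ^ 2 ≤ (1 / 400) ^ 2 := by norm_num
  refine ⟨1 / 4 - (((1 / 500 : ℝ) : ℂ) + ((1 / 2000 : ℝ) : ℂ) * Complex.I), ?_, ?_, ?_⟩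
  · intro hmem
    have h0 := Metric.infDist_zero_of_mem hmem
    rw [infDist_eq ha hb hd] at h0
    have : 0 < Real.sqrt ((1 / 500 : ℝ) ^ 2 + (1 / 2000) ^ 2) := Real.sqrt_pos.2 (by norm_num)
    exact this.ne' h0
  · rintro ⟨t, -, -, ht⟩
    have := congrArg Complex.im ht
    simp at this
  · rw [rbif_eq ha hb hd, infDist_eq ha hb hd]

end Pool.Agent.Results.MP_77ccbb_an.EqualityNearCusp
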